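import Mathlib
import Pool.Agent.H17.KMen

set_option autoImplicit false

namespace Pool.Agent.Results.MP_41ff45_gt.Neg
open Set Pool.Agent.H17.KMen

/-- P2 has a winning Markov strategy in the finite selection game on `k`-covers. -/
def MarkovKMenger (X : Type) [TopologicalSpace X] : Prop :=
  ∃ σ : Set (Set X) → ℕ → Set (Set X),
    (∀ 𝒰 n, KCover X 𝒰 → σ 𝒰 n ⊆ 𝒰 ∧ (σ 𝒰 n).Finite) ∧
      ∀ 𝒰 : ℕ → Set (Set X), (∀ n, KCover X (𝒰 n)) → KCover X (⋃ n, σ (𝒰 n) n)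

/-- P2 has a winning Markov strategy in the single selection game on `k`-covers. -/
def MarkovKRothberger (X : Type) [TopologicalSpace X] : Prop :=
  ∃ σ : Set (Set X) → ℕ → Set X,
    (∀ 𝒰 n, KCover X 𝒰 → σ 𝒰 n ∈ 𝒰) ∧
      ∀ 𝒰 : ℕ → Set (Set X), (∀ n, KCover X (𝒰 n)) → KCover X (range fun n => σ (𝒰 n) n)

theorem result : ∃ (X : Type) (_ : TopologicalSpace X), T1Space X ∧
    MarkovKMenger X ∧ ¬ MarkovKRothberger X := by
  refine ⟨X, inferInstance, inferInstance, markov, ?_⟩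
  rintro ⟨σ, h1, h2⟩
  obtain ⟨𝒰, h3, h4⟩ := noRoth
  exact h4 _ (fun n => h1 _ n (h3 n)) (h2 𝒰 h3)

end Pool.Agent.Results.MP_41ff45_gt.Neg
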